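import Pool.Agent.Helper62.BT.ER
import Pool.Agent.Helper12.BT.LAP
import Pool.Agent.Helper81.BT.UINT

/-! DICH: the core/neck dichotomy (helper97). -/

namespace Pool.Helper4.BT
open MeasureTheory Metric Set Laplacian InnerProductSpace

theorem dich_U_nonneg (μ : ℝ) (z x : E) : 0 ≤ U μ z x := by
  unfold U; positivity

theorem dich_U_le {μ : ℝ} (hμ : 0 < μ) (z x : E) : U μ z x ≤ 24 / μ ^ 2 := by
  unfold U
  have h1 : μ ^ 2 ≤ A μ z x := by
    unfold A; linarith [sq_nonneg ‖x - z‖]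
  have h2 : 0 < μ ^ 2 := by positivity
  have h3 : 0 < A μ z x := lt_of_lt_of_le h2 h1
  rw [div_le_div_iff₀ (by positivity) h2]
  have h4 : μ ^ 2 * μ ^ 2 ≤ A μ z x ^ 2 := by
    rw [sq (A μ z x)]; exact mul_le_mul h1 h1 h2.le h3.le
  linarith

theorem dich_cube (a b : ℝ) (ha : 0 ≤ a) (hb : 0 ≤ b) : (a + b) ^ 3 ≤ 4 * (a ^ 3 + b ^ 3) := by
  nlinarith [mul_nonneg (add_nonneg ha hb) (sq_nonneg (a - b))]

theorem dich_sum_cube (k : ℕ) (hk : 1 ≤ k) (f : ℕ → ℝ) (hf : ∀ l, 0 ≤ f l) :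
    (∑ l ∈ Finset.range k, f l) ^ 3 ≤ (k : ℝ) ^ 2 * ∑ l ∈ Finset.range k, f l ^ 3 := by
  have h := pow_sum_div_card_le_sum_pow (s := Finset.range k) (f := f) (fun a _ => hf a) 2
  have hk' : (0 : ℝ) < (k : ℝ) ^ 2 := by
    have : (0 : ℝ) < k := by exact_mod_cast hk
    positivity
  rw [Finset.card_range, div_le_iff₀ hk'] at h
  rw [mul_comm]
  exact h

/-- The main estimate on a ball on which every bubble is small. -/
theorem dich_ball (k : ℕ) (hk : 1 ≤ k) (K0 θ ε1 ε2 δ' : ℝ) (hθ0 : 0 < θ)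
    (hε12 : 4 * (1 + (k : ℝ) ^ 3) * ε2 ≤ ε1)
    (hreg : ∀ (x : E) (s lam : ℝ) (v : E → ℝ), 0 < s →
      0 ≤ lam → lam * s ^ 2 ≤ 1 → ContDiff ℝ 2 v → Sol x s lam v →
      ∫ y in ball x s, |v y| ^ 3 ≤ ε1 → |v x| * s ^ 2 ≤ δ')
    (htail : ∀ (μ : ℝ) (z : E), 0 < μ → ∫ x in {x | K0 * μ ≤ ‖x - z‖}, U μ z x ^ 3 ≤ ε2)
    (hθ : 24 ^ 3 * (volume (ball (0 : E) 1)).toReal * θ ^ 6 ≤ ε2)
    (p : E) (R : ℝ) (u : E → ℝ) (lam : ℝ) (mu : ℕ → ℝ) (z : ℕ → E) (sg : ℕ → ℝ)
    (hlam : 0 ≤ lam) (hu : ContDiff ℝ 2 u) (hsol : Sol p (2 * R) lam u)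
    (hmu : ∀ l < k, 0 < mu l) (hsg : ∀ l < k, sg l = 1 ∨ sg l = -1)
    (hint : ∫ x in ball p (2 * R), |u x - bubbles k sg mu z x| ^ 3 ≤ ε2)
    (x : E) (s : ℝ) (hs : 0 < s) (hls : lam * s ^ 2 ≤ 1) (hsub : ball x s ⊆ ball p (2 * R))
    (hsm : ∀ j < k, (2 * K0 * mu j ≤ ‖x - z j‖ ∧ s ≤ ‖x - z j‖ / 2) ∨ s ≤ θ * mu j) :
    |u x| * s ^ 2 ≤ δ' := by
  refine hreg x s lam u hs hlam hls hu (fun y hy => hsol y (hsub hy)) ?_
  -- continuity
  have hUc : ∀ l < k, Continuous (U (mu l) (z l)) := fun l hl =>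
    (contDiff_U (hmu l hl) (z l) (n := 0)).continuous
  have hbc : Continuous (bubbles k sg mu z) := by
    unfold bubbles
    exact continuous_finsetSum _ fun l hl =>
      continuous_const.mul (hUc l (Finset.mem_range.1 hl))
  have hwc : Continuous fun y => |u y - bubbles k sg mu z y| ^ 3 :=
    ((hu.continuous.sub hbc).abs).pow 3
  have hint' : ∀ f : E → ℝ, Continuous f → ∀ (c : E) (r : ℝ), IntegrableOn f (ball c r) := by
    intro f hf c r
    exact (hf.continuousOn.integrableOn_compact (isCompact_closedBall c r)).mono_set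
      ball_subset_closedBall
  -- each bubble is small on the ball
  have hUj : ∀ j < k, ∫ y in ball x s, U (mu j) (z j) y ^ 3 ≤ ε2 := by
    intro j hj
    rcases hsm j hj with ⟨h1, h2⟩ | h1
    · obtain ⟨C, _, hC⟩ := integral_U_cube
      have hI := (hC (mu j) (z j) (hmu j hj)).1
      refine le_trans ?_ (htail (mu j) (z j) (hmu j hj))
      refine setIntegral_mono_set hI.integrableOn
        (Filter.Eventually.of_forall fun y => pow_nonneg (dich_U_nonneg _ _ _) 3) ?_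
      refine Filter.Eventually.of_forall fun y hy => ?_
      show K0 * mu j ≤ ‖y - z j‖
      have hy' : ‖y - x‖ < s := by rw [← dist_eq_norm]; exact hy
      have h3 : ‖x - z j‖ ≤ ‖x - y‖ + ‖y - z j‖ := norm_sub_le_norm_sub_add_norm_sub _ _ _
      rw [norm_sub_rev x y] at h3
      linarith
    · have hm := hmu j hj
      have h2 : ‖∫ y in ball x s, U (mu j) (z j) y ^ 3‖ ≤ (24 / mu j ^ 2) ^ 3 *
          volume.real (ball x s) := by
        refine norm_setIntegral_le_of_norm_le_const measure_ball_lt_top fun y _ => ?_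
        rw [Real.norm_eq_abs, abs_of_nonneg (pow_nonneg (dich_U_nonneg _ _ _) 3)]
        exact pow_le_pow_left₀ (dich_U_nonneg _ _ _) (dich_U_le hm _ _) 3
      have h3 : volume.real (ball x s) = s ^ 6 * (volume (ball (0 : E) 1)).toReal := by
        rw [Measure.real, Measure.addHaar_ball volume x hs.le, ENNReal.toReal_mul,
          ENNReal.toReal_ofReal (by positivity)]
        simp
      rw [h3] at h2
      have hV : 0 ≤ (volume (ball (0 : E) 1)).toReal := ENNReal.toReal_nonneg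
      have h4 : s ^ 6 ≤ (θ * mu j) ^ 6 := pow_le_pow_left₀ hs.le h1 6
      calc ∫ y in ball x s, U (mu j) (z j) y ^ 3 ≤ ‖∫ y in ball x s, U (mu j) (z j) y ^ 3‖ :=
            le_trans (le_abs_self _) (le_of_eq (Real.norm_eq_abs _).symm)
        _ ≤ _ := h2
        _ ≤ (24 / mu j ^ 2) ^ 3 * ((θ * mu j) ^ 6 * (volume (ball (0 : E) 1)).toReal) := by
            gcongr
        _ = 24 ^ 3 * (volume (ball (0 : E) 1)).toReal * θ ^ 6 := by
            field_simp
        _ ≤ ε2 := hθ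
  -- pointwise bound
  have hpt : ∀ y, |u y| ^ 3 ≤ 4 * |u y - bubbles k sg mu z y| ^ 3 +
      4 * (k : ℝ) ^ 2 * ∑ l ∈ Finset.range k, U (mu l) (z l) y ^ 3 := by
    intro y
    have h1 : |bubbles k sg mu z y| ≤ ∑ l ∈ Finset.range k, U (mu l) (z l) y := by
      unfold bubbles
      refine (Finset.abs_sum_le_sum_abs _ _).trans (Finset.sum_le_sum fun l hl => ?_)
      rw [abs_mul, abs_of_nonneg (dich_U_nonneg _ _ _)]
      rcases hsg l (Finset.mem_range.1 hl) with h | h <;> rw [h] <;> simp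
    have h2 : |u y| ≤ |u y - bubbles k sg mu z y| + ∑ l ∈ Finset.range k, U (mu l) (z l) y := by
      have := abs_add_le (u y - bubbles k sg mu z y) (bubbles k sg mu z y)
      rw [sub_add_cancel] at this
      linarith
    have h3 : 0 ≤ ∑ l ∈ Finset.range k, U (mu l) (z l) y :=
      Finset.sum_nonneg fun l _ => dich_U_nonneg _ _ _
    have h4 := dich_sum_cube k hk (fun l => U (mu l) (z l) y) (fun l => dich_U_nonneg _ _ _)
    calc |u y| ^ 3 ≤ (|u y - bubbles k sg mu z y| +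
          ∑ l ∈ Finset.range k, U (mu l) (z l) y) ^ 3 := pow_le_pow_left₀ (abs_nonneg _) h2 3
      _ ≤ 4 * (|u y - bubbles k sg mu z y| ^ 3 +
          (∑ l ∈ Finset.range k, U (mu l) (z l) y) ^ 3) := dich_cube _ _ (abs_nonneg _) h3
      _ ≤ _ := by
          have h5 : (∑ l ∈ Finset.range k, U (mu l) (z l) y) ^ 3 ≤
            (k : ℝ) ^ 2 * ∑ l ∈ Finset.range k, U (mu l) (z l) y ^ 3 := h4
          linarith
  have hsumc : Continuous fun y => ∑ l ∈ Finset.range k, U (mu l) (z l) y ^ 3 :=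
    continuous_finsetSum _ fun l hl => (hUc l (Finset.mem_range.1 hl)).pow 3
  have hk0 : (0 : ℝ) ≤ k := Nat.cast_nonneg k
  calc ∫ y in ball x s, |u y| ^ 3
      ≤ ∫ y in ball x s, (4 * |u y - bubbles k sg mu z y| ^ 3 +
          4 * (k : ℝ) ^ 2 * ∑ l ∈ Finset.range k, U (mu l) (z l) y ^ 3) := by
        refine setIntegral_mono_on (hint' _ (hu.continuous.abs.pow 3) _ _)
          (hint' _ ((continuous_const.mul hwc).add (continuous_const.mul hsumc)) _ _)
          measurableSet_ball fun y _ => hpt y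
    _ = 4 * (∫ y in ball x s, |u y - bubbles k sg mu z y| ^ 3) +
          4 * (k : ℝ) ^ 2 * ∑ l ∈ Finset.range k, ∫ y in ball x s, U (mu l) (z l) y ^ 3 := by
        have i1 : IntegrableOn (fun y => 4 * |u y - bubbles k sg mu z y| ^ 3) (ball x s) :=
          hint' _ (continuous_const.mul hwc) _ _
        have i2 : IntegrableOn (fun y => 4 * (k : ℝ) ^ 2 *
            ∑ l ∈ Finset.range k, U (mu l) (z l) y ^ 3) (ball x s) :=
          hint' _ (continuous_const.mul hsumc) _ _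
        rw [integral_add i1 i2, integral_const_mul, integral_const_mul,
          integral_finsetSum]
        intro l hl
        exact hint' _ ((hUc l (Finset.mem_range.1 hl)).pow 3) _ _
    _ ≤ 4 * ε2 + 4 * (k : ℝ) ^ 2 * (k * ε2) := by
        have h1 : ∫ y in ball x s, |u y - bubbles k sg mu z y| ^ 3 ≤ ε2 := by
          refine le_trans ?_ hint
          exact setIntegral_mono_set (hint' _ hwc _ _)
            (Filter.Eventually.of_forall fun y => pow_nonneg (abs_nonneg _) 3)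
            (Filter.Eventually.of_forall fun y hy => hsub hy)
        have h2 : ∑ l ∈ Finset.range k, ∫ y in ball x s, U (mu l) (z l) y ^ 3 ≤ k * ε2 := by
          calc ∑ l ∈ Finset.range k, ∫ y in ball x s, U (mu l) (z l) y ^ 3
              ≤ ∑ l ∈ Finset.range k, ε2 :=
                Finset.sum_le_sum fun l hl => hUj l (Finset.mem_range.1 hl)
            _ = k * ε2 := by rw [Finset.sum_const, Finset.card_range, nsmul_eq_mul]
        have h3 := mul_le_mul_of_nonneg_left h2 (by positivity : (0 : ℝ) ≤ 4 * (k : ℝ) ^ 2)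
        linarith
    _ = 4 * (1 + (k : ℝ) ^ 3) * ε2 := by ring
    _ ≤ ε1 := hε12

theorem dich : ∀ (k : ℕ) (_ : 1 ≤ k) (Λ : ℝ), ∃ K C1 ε R1 : ℝ, 1 ≤ K ∧ 0 < C1 ∧ 0 < ε ∧ 0 < R1 ∧
    R1 ≤ 1 / 4 ∧
    ∀ (p : E) (R : ℝ) (u : E → ℝ) (lam : ℝ) (mu : ℕ → ℝ) (z : ℕ → E) (sg : ℕ → ℝ),
      0 < R → R ≤ R1 → 0 ≤ lam → lam ≤ Λ → ContDiff ℝ 2 u → Sol p (2 * R) lam u →
      (∀ l < k, 0 < mu l) → (∀ l l', l ≤ l' → l' < k → mu l' ≤ mu l) → K * mu 0 < R / 2 →
      (∀ l < k, ‖z l - p‖ ≤ R / 2) → (∀ l < k, sg l = 1 ∨ sg l = -1) →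
      ∫ x in ball p (2 * R), |u x - bubbles k sg mu z x| ^ 3 ≤ ε →
      Dich k K C1 p R lam u mu z ∧ ∀ x, ‖x - p‖ = R → |u x| ≤ 1 / R ^ 2 := by
  intro k hk Λ
  have hk0 : (0 : ℝ) < k := by exact_mod_cast hk
  have hk1 : (1 : ℝ) ≤ k := by exact_mod_cast hk
  obtain ⟨ε1, hε1, hreg⟩ := eps_reg (1 / (2048 * k)) (by positivity)
  set ε2 : ℝ := ε1 / (4 * (1 + (k : ℝ) ^ 3)) with hε2
  have hε2pos : 0 < ε2 := by positivity
  have hε12 : 4 * (1 + (k : ℝ) ^ 3) * ε2 ≤ ε1 := by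
    rw [hε2, mul_div_cancel₀]
    positivity
  obtain ⟨K0, hK0, htail⟩ := integral_U_cube_tail ε2 hε2pos
  set V : ℝ := (volume (ball (0 : E) 1)).toReal with hV
  have hV0 : 0 ≤ V := ENNReal.toReal_nonneg
  set θ : ℝ := min 1 (ε2 / (24 ^ 3 * V + 1)) with hθdef
  have hθ0 : 0 < θ := lt_min one_pos (by positivity)
  have hθ1 : θ ≤ 1 := min_le_left _ _
  have hθ : 24 ^ 3 * V * θ ^ 6 ≤ ε2 := by
    have h1 : θ ^ 6 ≤ θ := by
      calc θ ^ 6 ≤ θ ^ 1 := pow_le_pow_of_le_one hθ0.le hθ1 (by norm_num)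
        _ = θ := pow_one θ
    have h2 : θ ≤ ε2 / (24 ^ 3 * V + 1) := min_le_right _ _
    have h3 : (24 ^ 3 * V + 1) * θ ≤ ε2 := by
      rw [le_div_iff₀ (by positivity)] at h2
      linarith
    have h4 : 24 ^ 3 * V * θ ^ 6 ≤ 24 ^ 3 * V * θ := mul_le_mul_of_nonneg_left h1 (by positivity)
    linarith
  set R1 : ℝ := 1 / (2048 * k * (|Λ| + 1)) with hR1
  have hΛ0 : 0 ≤ |Λ| := abs_nonneg _
  have hR1pos : 0 < R1 := by positivity
  have hR1a : R1 ≤ 1 / 2048 := by
    rw [hR1]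
    apply one_div_le_one_div_of_le (by norm_num)
    have : (1 : ℝ) ≤ k * (|Λ| + 1) := by
      have := mul_le_mul hk1 (by linarith : (1 : ℝ) ≤ |Λ| + 1) (by norm_num) hk0.le
      linarith
    linarith
  have hR1b : Λ * R1 ≤ 1 / (2048 * k) := by
    have h1 : Λ * R1 ≤ (|Λ| + 1) * R1 :=
      mul_le_mul_of_nonneg_right (by linarith [le_abs_self Λ]) hR1pos.le
    have h2 : (|Λ| + 1) * R1 = 1 / (2048 * k) := by
      rw [hR1]; field_simp
    linarith
  refine ⟨2 * K0, 1 / (2048 * k) / θ ^ 2, ε2, R1, by linarith, by positivity, hε2pos, hR1pos,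
    by linarith, ?_⟩
  intro p R u lam mu z sg hR hRR1 hlam hlamΛ hu hsol hmu hmono hKmu hz hsg hint
  have hmu0 : 0 < mu 0 := hmu 0 hk
  have hmul : ∀ l < k, mu l ≤ mu 0 := fun l hl => hmono 0 l (Nat.zero_le _) hl
  have hRsmall : R ≤ 1 / 2048 := hRR1.trans hR1a
  -- smallness of lam r^2
  have hlamR : lam * R ≤ 1 / (2048 * k) := by
    calc lam * R ≤ Λ * R1 := mul_le_mul hlamΛ hRR1 hR.le (hlam.trans hlamΛ)
      _ ≤ _ := hR1b
  have hkk : 1 / (2048 * (k : ℝ)) ≤ 1 := by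
    rw [div_le_one (by positivity)]
    linarith
  have hball := dich_ball k hk K0 θ ε1 ε2 (1 / (2048 * k)) hθ0 hε12 hreg htail hθ p R u lam mu z sg
    hlam hu hsol hmu hsg hint
  have hballs : ∀ (x : E) (s : ℝ), ‖x - p‖ ≤ R → s ≤ R → ball x s ⊆ ball p (2 * R) := by
    intro x s hx hs y hy
    have hy' : ‖y - x‖ < s := by rw [← dist_eq_norm]; exact hy
    rw [mem_ball, dist_eq_norm]
    have := norm_sub_le_norm_sub_add_norm_sub y x p
    linarith
  have hlams : ∀ s : ℝ, 0 < s → s ≤ R → lam * s ^ 2 ≤ 1 := by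
    intro s hs hsR
    have h1 : lam * s ^ 2 = (lam * s) * s := by ring
    have h2 : lam * s ≤ lam * R := mul_le_mul_of_nonneg_left hsR hlam
    have h3 : (lam * s) * s ≤ 1 * 1 :=
      mul_le_mul (h2.trans (hlamR.trans hkk)) (by linarith) hs.le zero_le_one
    rw [h1]; linarith
  -- the neck conclusion
  have hneck : ∀ (x : E) (l : ℕ), l < k → ‖x - p‖ ≤ R → 2 * K0 * mu l < ‖x - z l‖ →
      (∀ j < k, (2 * K0 * mu j ≤ ‖x - z j‖ ∧ ‖x - z l‖ / 2 ≤ ‖x - z j‖ / 2) ∨
        ‖x - z l‖ / 2 ≤ θ * mu j) →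
      (∃ l < k, mu l ≤ ‖x - z l‖ ∧ (|u x| + lam) * ‖x - z l‖ ^ 2 ≤ 1 / (256 * k)) := by
    intro x l hl hx hr hsm
    have hm := hmu l hl
    have hK1 : mu l ≤ 2 * K0 * mu l := by
      have : 1 * mu l ≤ (2 * K0) * mu l := mul_le_mul_of_nonneg_right (by linarith) hm.le
      linarith
    have hr0 : 0 < ‖x - z l‖ := by linarith
    have hr1 : ‖x - z l‖ ≤ 3 / 2 * R := by
      have h1 := norm_sub_le_norm_sub_add_norm_sub x p (z l)
      have h2 := hz l hl
      rw [norm_sub_rev] at h2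
      linarith
    have h1 := hball x (‖x - z l‖ / 2) (by linarith) (hlams _ (by linarith) (by linarith))
      (hballs x _ hx (by linarith)) hsm
    refine ⟨l, hl, by linarith, ?_⟩
    have h2 : |u x| * ‖x - z l‖ ^ 2 ≤ 4 * (1 / (2048 * k)) := by
      have e : |u x| * (‖x - z l‖ / 2) ^ 2 = |u x| * ‖x - z l‖ ^ 2 / 4 := by ring
      rw [e] at h1
      linarith
    have h3 : lam * ‖x - z l‖ ^ 2 ≤ 4 * (1 / (2048 * k)) := by
      have h4 : lam * ‖x - z l‖ ≤ lam * (3 / 2 * R) := mul_le_mul_of_nonneg_left hr1 hlam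
      have h5 : lam * ‖x - z l‖ * ‖x - z l‖ ≤ (lam * (3 / 2 * R)) * 1 :=
        mul_le_mul h4 (by linarith) hr0.le (by positivity)
      have h6 : lam * ‖x - z l‖ ^ 2 = lam * ‖x - z l‖ * ‖x - z l‖ := by ring
      have h7 : 0 < 1 / (2048 * (k : ℝ)) := by positivity
      rw [h6]
      linarith
    have h4 : 4 * (1 / (2048 * (k : ℝ))) + 4 * (1 / (2048 * k)) = 1 / (256 * k) := by
      field_simp; norm_num
    linarith
  have hmain : Dich k (2 * K0) (1 / (2048 * k) / θ ^ 2) p R lam u mu z := by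
    intro x hx
    have hx' : ‖x - p‖ ≤ R := by rw [← dist_eq_norm]; exact hx
    by_cases hN : ∀ j < k, 2 * K0 * mu j < ‖x - z j‖
    · right
      obtain ⟨l, hl, hmin⟩ := Finset.exists_min_image (Finset.range k) (fun l => ‖x - z l‖)
        ⟨0, Finset.mem_range.2 hk⟩
      have hlk := Finset.mem_range.1 hl
      refine hneck x l hlk hx' (hN l hlk) fun j hj => Or.inl ⟨(hN j hj).le, ?_⟩
      have : ‖x - z l‖ ≤ ‖x - z j‖ := hmin j (Finset.mem_range.2 hj)
      linarith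
    · push Not at hN
      -- the largest core index
      obtain ⟨j0, hj0, hj0'⟩ := hN
      classical
      let S := (Finset.range k).filter fun j => ‖x - z j‖ ≤ 2 * K0 * mu j
      have hSne : S.Nonempty := ⟨j0, by simp [S, hj0, hj0']⟩
      obtain ⟨js, hjs, hmax⟩ := Finset.exists_max_image S (fun j => j) hSne
      have hjsk : js < k := by
        have := (Finset.mem_filter.1 hjs).1
        exact Finset.mem_range.1 this
      have hjsr : ‖x - z js‖ ≤ 2 * K0 * mu js := (Finset.mem_filter.1 hjs).2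
      have hgt : ∀ l < k, js < l → 2 * K0 * mu l < ‖x - z l‖ := by
        intro l hl hjl
        by_contra hcon
        have : l ∈ S := Finset.mem_filter.2 ⟨Finset.mem_range.2 hl, not_lt.1 hcon⟩
        have := hmax l this
        omega
      by_cases hC1 : ∀ l < k, js < l → 2 * (θ * mu js) ≤ ‖x - z l‖
      · left
        refine ⟨js, hjsk, hjsr, ?_⟩
        have hm := hmu js hjsk
        have hs : 0 < θ * mu js := mul_pos hθ0 hm
        have hsR : θ * mu js ≤ R := by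
          have h1 : θ * mu js ≤ 1 * mu js := mul_le_mul_of_nonneg_right hθ1 hm.le
          have h2 := hmul js hjsk
          have h3 : 1 * mu 0 ≤ 2 * K0 * mu 0 := mul_le_mul_of_nonneg_right (by linarith) hmu0.le
          linarith
        have h1 := hball x (θ * mu js) hs (hlams _ hs hsR) (hballs x _ hx' hsR) fun j hj => by
          rcases lt_or_ge js j with hjj | hjj
          · left
            have := hC1 j hj hjj
            exact ⟨(hgt j hj hjj).le, by linarith⟩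
          · right
            exact mul_le_mul_of_nonneg_left (hmono j js hjj hjsk) hθ0.le
        rw [div_div, le_div_iff₀ (by positivity)]
        have e : |u x| * (θ ^ 2 * mu js ^ 2) = |u x| * (θ * mu js) ^ 2 := by ring
        rw [e]; exact h1
      · right
        push Not at hC1
        obtain ⟨l0, hl0, hl0', hl0''⟩ := hC1
        let S' := (Finset.range k).filter fun j => js < j
        have hSne' : S'.Nonempty := ⟨l0, by simp [S', hl0, hl0']⟩
        obtain ⟨l, hl, hmin⟩ := Finset.exists_min_image S' (fun l => ‖x - z l‖) hSne'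
        have hlk : l < k := Finset.mem_range.1 (Finset.mem_filter.1 hl).1
        have hljs : js < l := (Finset.mem_filter.1 hl).2
        have hle : ‖x - z l‖ ≤ ‖x - z l0‖ :=
          hmin l0 (Finset.mem_filter.2 ⟨Finset.mem_range.2 hl0, hl0'⟩)
        refine hneck x l hlk hx' (hgt l hlk hljs) fun j hj => ?_
        rcases lt_or_ge js j with hjj | hjj
        · left
          have : ‖x - z l‖ ≤ ‖x - z j‖ :=
            hmin j (Finset.mem_filter.2 ⟨Finset.mem_range.2 hj, hjj⟩)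
          exact ⟨(hgt j hj hjj).le, by linarith⟩
        · right
          have h1 : θ * mu js ≤ θ * mu j := mul_le_mul_of_nonneg_left (hmono j js hjj hjsk) hθ0.le
          linarith
  refine ⟨hmain, fun x hx => ?_⟩
  have hxR : x ∈ closedBall p R := by rw [mem_closedBall, dist_eq_norm]; exact hx.le
  have hrl : ∀ l < k, R / 2 ≤ ‖x - z l‖ := by
    intro l hl
    have h1 := norm_sub_le_norm_sub_add_norm_sub x (z l) p
    have h2 := hz l hl
    linarith
  rcases hmain x hxR with ⟨j, hj, hj1, -⟩ | ⟨l, hl, -, hl2⟩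
  · exfalso
    have h1 := hrl j hj
    have h2 : 2 * K0 * mu j ≤ 2 * K0 * mu 0 :=
      mul_le_mul_of_nonneg_left (hmul j hj) (by linarith)
    linarith
  · have h1 := hrl l hl
    have h2 : (R / 2) ^ 2 ≤ ‖x - z l‖ ^ 2 := pow_le_pow_left₀ (by linarith) h1 2
    have h3 : |u x| * (R / 2) ^ 2 ≤ 1 / (256 * k) := by
      calc |u x| * (R / 2) ^ 2 ≤ (|u x| + lam) * ‖x - z l‖ ^ 2 :=
            mul_le_mul (by linarith) h2 (by positivity) (by positivity)
        _ ≤ _ := hl2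
    have h4 : 1 / (256 * (k : ℝ)) ≤ 1 / 4 := by
      apply one_div_le_one_div_of_le (by norm_num)
      linarith
    rw [le_div_iff₀ (by positivity)]
    have e : |u x| * (R / 2) ^ 2 = |u x| * R ^ 2 / 4 := by ring
    rw [e] at h3
    linarith

end Pool.Helper4.BT
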