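import Pool.Agent.Helper12.BT.LAP
import Pool.Agent.Helper7.BT.JJa
import Pool.Agent.Helper7.BT.JJb
import Pool.Agent.Helper4.BT.Defs2

/-! FE1a: the first part of the outer source of the second bubble (helper97). -/

namespace Pool.Helper4.BT
open MeasureTheory Metric Set Laplacian InnerProductSpace

/-! ### bookkeeping for `J` -/

theorem FE1a_mono {m : ℕ} {f g : E → ℝ} {x : E} {b : ℝ} (h : ∀ y, f y ≤ g y)
    (hg : J m g x ≤ ENNReal.ofReal b) : J m f x ≤ ENNReal.ofReal b :=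
  (J_mono h x).trans hg

theorem FE1a_le {m : ℕ} {f : E → ℝ} {x : E} {a b : ℝ} (hf : J m f x ≤ ENNReal.ofReal a)
    (h : a ≤ b) : J m f x ≤ ENNReal.ofReal b := hf.trans (ENNReal.ofReal_le_ofReal h)

theorem FE1a_add {m : ℕ} {f g : E → ℝ} {x : E} {a b : ℝ} (ha : 0 ≤ a) (hb : 0 ≤ b)
    (hf : J m f x ≤ ENNReal.ofReal a) (hg : J m g x ≤ ENNReal.ofReal b) (hgm : Measurable g) :
    J m (fun y => f y + g y) x ≤ ENNReal.ofReal (a + b) := by
  rw [ENNReal.ofReal_add ha hb]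
  exact (J_add_le f g hgm x).trans (add_le_add hf hg)

theorem FE1a_mul {m : ℕ} {f : E → ℝ} {x : E} {a c : ℝ} (hc : 0 ≤ c)
    (hf : J m f x ≤ ENNReal.ofReal a) :
    J m (fun y => c * f y) x ≤ ENNReal.ofReal (c * a) := by
  rw [J_const_mul c hc, ENNReal.ofReal_mul hc]
  exact mul_le_mul_right hf _

theorem FE1a_zero {m : ℕ} (x : E) : J m (fun _ => 0) x ≤ ENNReal.ofReal 0 := by
  unfold J; simp

theorem FE1a_sum {m : ℕ} {ι : Type} (S : Finset ι) (f : ι → E → ℝ) (x : E) (b : ι → ℝ)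
    (hb : ∀ i ∈ S, 0 ≤ b i) (hf : ∀ i ∈ S, J m (f i) x ≤ ENNReal.ofReal (b i))
    (hm : ∀ i ∈ S, Measurable (f i)) :
    J m (fun y => ∑ i ∈ S, f i y) x ≤ ENNReal.ofReal (∑ i ∈ S, b i) := by
  classical
  induction S using Finset.induction_on with
  | empty => simpa using FE1a_zero (m := m) x
  | insert i S hi ih =>
    have e : (fun y => ∑ j ∈ insert i S, f j y) = fun y => (∑ j ∈ S, f j y) + f i y := by
      funext y
      rw [Finset.sum_insert hi, add_comm]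
    rw [e, Finset.sum_insert hi, add_comm]
    have h1 := ih (fun j hj => hb j (Finset.mem_insert_of_mem hj))
      (fun j hj => hf j (Finset.mem_insert_of_mem hj)) (fun j hj => hm j (Finset.mem_insert_of_mem hj))
    exact FE1a_add (Finset.sum_nonneg fun j hj => hb j (Finset.mem_insert_of_mem hj))
      (hb i (Finset.mem_insert_self _ _)) h1 (hf i (Finset.mem_insert_self _ _))
      (hm i (Finset.mem_insert_self _ _))

theorem FE1a_measurable_U (μ : ℝ) (z : E) : Measurable (U μ z) := by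
  have h1 : Measurable (A μ z) := (contDiff_A μ z (n := 0)).continuous.measurable
  show Measurable fun x => 24 * μ ^ 2 / A μ z x ^ 2
  exact measurable_const.div (h1.pow_const 2)

theorem FE1a_U_nonneg (μ : ℝ) (z x : E) : 0 ≤ U μ z x := by
  unfold U; positivity

/-- One small bubble, seen from outside the ball of radius `ρ` around `c`. -/
theorem FE1a_one (CU CS : ℝ) (hCU : 0 < CU) (hCS : 0 < CS)
    (hJU : ∀ (μ : ℝ) (z x : E), 0 < μ →
      J 4 (U μ z) x ≤ ENNReal.ofReal (CU * μ ^ 2 / A μ z x) ∧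
      J 5 (U μ z) x ≤ ENNReal.ofReal (CU * μ ^ 2 / (A μ z x * √(A μ z x))))
    (hJS : ∀ (μ : ℝ) (z x : E), 0 < μ →
      J 4 (fun y => U μ z y ^ 2) x ≤ ENNReal.ofReal (CS * U μ z x) ∧
      J 5 (fun y => U μ z y ^ 2) x ≤ ENNReal.ofReal (CS * U μ z x / √(A μ z x)))
    {μ ρ : ℝ} (hμ : 0 < μ) (hρ : 0 < ρ) (z c x : E) (S : Set E) (hS : ∀ y ∈ S, ρ ≤ ‖y - c‖)
    (hx : ‖x - c‖ ≤ 2 * ρ) (h : ‖z - c‖ ≤ ρ / 4 ∨ 8 * ρ ≤ ‖z - c‖) :
    J 4 (S.indicator (U μ z)) x ≤ ENNReal.ofReal (13 * CU * (μ ^ 2 / ρ ^ 2)) ∧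
    J 5 (S.indicator (U μ z)) x ≤ ENNReal.ofReal (13 * CU * (μ ^ 2 / ρ ^ 3)) ∧
    ((‖z - c‖ ≤ ρ / 4 ∧
      J 4 (S.indicator fun y => U μ z y ^ 2) x ≤ ENNReal.ofReal (4056 * CS * (μ ^ 4 / ρ ^ 6)) ∧
      J 5 (S.indicator fun y => U μ z y ^ 2) x ≤ ENNReal.ofReal (4056 * CS * (μ ^ 4 / ρ ^ 7))) ∨
     (8 * ρ ≤ ‖z - c‖ ∧
      J 4 (S.indicator fun y => U μ z y ^ 2) x ≤ ENNReal.ofReal (24 * CS * (μ ^ 2 / ρ ^ 4)) ∧
      J 5 (S.indicator fun y => U μ z y ^ 2) x ≤ ENNReal.ofReal (24 * CS * (μ ^ 2 / ρ ^ 5)))) := by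
  have hind : ∀ (f : E → ℝ) (y : E), 0 ≤ f y → S.indicator f y ≤ f y := by
    intro f y hf
    by_cases hy : y ∈ S
    · rw [indicator_of_mem hy]
    · rw [indicator_of_notMem hy]; exact hf
  rcases h with h | h
  · -- the inner case
    have hA : ρ ^ 2 ≤ A ρ c x := by unfold A; linarith [sq_nonneg ‖x - c‖]
    have hA0 : 0 < A ρ c x := lt_of_lt_of_le (by positivity) hA
    have hsA : ρ ≤ √(A ρ c x) := Real.le_sqrt_of_sq_le hA
    have hU : U ρ c x ≤ 24 / ρ ^ 2 := by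
      unfold U
      rw [div_le_div_iff₀ (by positivity) (by positivity)]
      have : ρ ^ 2 * ρ ^ 2 ≤ A ρ c x ^ 2 := by
        rw [sq (A ρ c x)]; exact mul_le_mul hA hA (by positivity) hA0.le
      linarith
    have hcmp : ∀ y, S.indicator (U μ z) y ≤ 13 * (μ ^ 2 / ρ ^ 2) * U ρ c y := by
      intro y
      by_cases hy : y ∈ S
      · rw [indicator_of_mem hy]; exact U_cmp hμ hρ h (hS y hy)
      · rw [indicator_of_notMem hy]
        exact mul_nonneg (by positivity) (FE1a_U_nonneg _ _ _)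
    have hcmp2 : ∀ y, S.indicator (fun y => U μ z y ^ 2) y ≤
        169 * (μ ^ 2 / ρ ^ 2) ^ 2 * U ρ c y ^ 2 := by
      intro y
      by_cases hy : y ∈ S
      · rw [indicator_of_mem hy]
        have := pow_le_pow_left₀ (FE1a_U_nonneg μ z y) (U_cmp hμ hρ h (hS y hy)) 2
        calc U μ z y ^ 2 ≤ (13 * (μ ^ 2 / ρ ^ 2) * U ρ c y) ^ 2 := this
          _ = _ := by ring
      · rw [indicator_of_notMem hy]
        positivity
    obtain ⟨j4, j5⟩ := hJU ρ c x hρ
    obtain ⟨s4, s5⟩ := hJS ρ c x hρ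
    refine ⟨?_, ?_, Or.inl ⟨h, ?_, ?_⟩⟩
    · refine FE1a_le (FE1a_mono hcmp (FE1a_mul (by positivity) j4)) ?_
      have h1 : CU * ρ ^ 2 / A ρ c x ≤ CU := by
        rw [div_le_iff₀ hA0]; exact mul_le_mul_of_nonneg_left hA hCU.le
      calc 13 * (μ ^ 2 / ρ ^ 2) * (CU * ρ ^ 2 / A ρ c x) ≤ 13 * (μ ^ 2 / ρ ^ 2) * CU :=
            mul_le_mul_of_nonneg_left h1 (by positivity)
        _ = _ := by ring
    · refine FE1a_le (FE1a_mono hcmp (FE1a_mul (by positivity) j5)) ?_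
      have h1 : CU * ρ ^ 2 / (A ρ c x * √(A ρ c x)) ≤ CU / ρ := by
        rw [div_le_div_iff₀ (mul_pos hA0 (lt_of_lt_of_le hρ hsA)) hρ]
        have : ρ ^ 2 * ρ ≤ A ρ c x * √(A ρ c x) := mul_le_mul hA hsA hρ.le hA0.le
        calc CU * ρ ^ 2 * ρ = CU * (ρ ^ 2 * ρ) := by ring
          _ ≤ _ := mul_le_mul_of_nonneg_left this hCU.le
      calc 13 * (μ ^ 2 / ρ ^ 2) * (CU * ρ ^ 2 / (A ρ c x * √(A ρ c x)))
          ≤ 13 * (μ ^ 2 / ρ ^ 2) * (CU / ρ) := mul_le_mul_of_nonneg_left h1 (by positivity)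
        _ = _ := by field_simp
    · refine FE1a_le (FE1a_mono hcmp2 (FE1a_mul (by positivity) s4)) ?_
      calc 169 * (μ ^ 2 / ρ ^ 2) ^ 2 * (CS * U ρ c x)
          ≤ 169 * (μ ^ 2 / ρ ^ 2) ^ 2 * (CS * (24 / ρ ^ 2)) :=
            mul_le_mul_of_nonneg_left (mul_le_mul_of_nonneg_left hU hCS.le) (by positivity)
        _ = _ := by field_simp; norm_num
    · refine FE1a_le (FE1a_mono hcmp2 (FE1a_mul (by positivity) s5)) ?_
      have h1 : CS * U ρ c x / √(A ρ c x) ≤ CS * (24 / ρ ^ 2) / ρ :=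
        div_le_div₀ (by positivity) (mul_le_mul_of_nonneg_left hU hCS.le) hρ hsA
      calc 169 * (μ ^ 2 / ρ ^ 2) ^ 2 * (CS * U ρ c x / √(A ρ c x))
          ≤ 169 * (μ ^ 2 / ρ ^ 2) ^ 2 * (CS * (24 / ρ ^ 2) / ρ) :=
            mul_le_mul_of_nonneg_left h1 (by positivity)
        _ = _ := by field_simp; norm_num
  · -- the outer case
    have hd : ρ ≤ ‖x - z‖ := by
      have h1 := norm_sub_le_norm_sub_add_norm_sub z x c
      rw [norm_sub_rev z x] at h1
      linarith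
    have hA : ρ ^ 2 ≤ A μ z x := by
      have := pow_le_pow_left₀ hρ.le hd 2
      unfold A; linarith [sq_nonneg μ]
    have hA0 : 0 < A μ z x := lt_of_lt_of_le (by positivity) hA
    have hsA : ρ ≤ √(A μ z x) := Real.le_sqrt_of_sq_le hA
    have hU : U μ z x ≤ 24 * μ ^ 2 / ρ ^ 4 := by
      unfold U
      apply div_le_div_of_nonneg_left (by positivity) (by positivity)
      calc ρ ^ 4 = (ρ ^ 2) ^ 2 := by ring
        _ ≤ _ := pow_le_pow_left₀ (by positivity) hA 2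
    obtain ⟨j4, j5⟩ := hJU μ z x hμ
    obtain ⟨s4, s5⟩ := hJS μ z x hμ
    have hc1 : ∀ y, S.indicator (U μ z) y ≤ U μ z y := fun y => hind _ y (FE1a_U_nonneg _ _ _)
    have hc2 : ∀ y, S.indicator (fun y => U μ z y ^ 2) y ≤ U μ z y ^ 2 := fun y =>
      hind (fun y => U μ z y ^ 2) y (by positivity)
    refine ⟨?_, ?_, Or.inr ⟨h, ?_, ?_⟩⟩
    · refine FE1a_le (FE1a_mono hc1 j4) ?_
      have h1 : CU * μ ^ 2 / A μ z x ≤ CU * μ ^ 2 / ρ ^ 2 :=
        div_le_div_of_nonneg_left (by positivity) (by positivity) hA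
      have h2 : CU * μ ^ 2 / ρ ^ 2 = CU * (μ ^ 2 / ρ ^ 2) := by ring
      have h3 : 0 ≤ CU * (μ ^ 2 / ρ ^ 2) := by positivity
      linarith
    · refine FE1a_le (FE1a_mono hc1 j5) ?_
      have h0 : ρ ^ 3 ≤ A μ z x * √(A μ z x) := by
        calc ρ ^ 3 = ρ ^ 2 * ρ := by ring
          _ ≤ _ := mul_le_mul hA hsA hρ.le hA0.le
      have h1 : CU * μ ^ 2 / (A μ z x * √(A μ z x)) ≤ CU * μ ^ 2 / ρ ^ 3 :=
        div_le_div_of_nonneg_left (by positivity) (by positivity) h0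
      have h2 : CU * μ ^ 2 / ρ ^ 3 = CU * (μ ^ 2 / ρ ^ 3) := by ring
      have h3 : 0 ≤ CU * (μ ^ 2 / ρ ^ 3) := by positivity
      linarith
    · refine FE1a_le (FE1a_mono hc2 s4) ?_
      calc CS * U μ z x ≤ CS * (24 * μ ^ 2 / ρ ^ 4) := mul_le_mul_of_nonneg_left hU hCS.le
        _ = _ := by ring
    · refine FE1a_le (FE1a_mono hc2 s5) ?_
      have h1 : CS * U μ z x / √(A μ z x) ≤ CS * (24 * μ ^ 2 / ρ ^ 4) / ρ :=
        div_le_div₀ (by positivity) (mul_le_mul_of_nonneg_left hU hCS.le) hρ hsA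
      calc CS * U μ z x / √(A μ z x) ≤ CS * (24 * μ ^ 2 / ρ ^ 4) / ρ := h1
        _ = _ := by field_simp

theorem fe1_a : ∀ (k : ℕ) (Λ R C3 : ℝ), ∃ C : ℝ, 0 < C ∧ ∀ τ : ℝ, 0 < τ → τ ≤ 1 / 64 →
    ∃ ω0 : ℝ, 0 < ω0 ∧ ∀ (ω : ℝ) (p : E) (u : E → ℝ) (lam : ℝ) (mu : ℕ → ℝ) (z : ℕ → E)
      (sg : ℕ → ℝ) (ρ : ℝ), ω ≤ ω0 → Conf k Λ R C3 τ ω p u lam mu z sg → Rho1 k τ mu z ρ →
      ∀ x ∈ closedBall (z 1) (2 * ρ),
      J 4 ((SS R p (z 1) ρ).indicator (fun y => 1 + ∑ l ∈ Finset.range k, U (mu l) (z l) y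
          + ∑ l ∈ Finset.Ico 1 k, U (mu l) (z l) y ^ 2)) x
        ≤ ENNReal.ofReal (C * (1 + τ * tt mu z)) ∧
      J 5 ((SS R p (z 1) ρ).indicator (fun y => 1 + ∑ l ∈ Finset.range k, U (mu l) (z l) y
          + ∑ l ∈ Finset.Ico 1 k, U (mu l) (z l) y ^ 2)) x
        ≤ ENNReal.ofReal (C * (τ * (1 + tt mu z) + (mu 0 / DD mu z) ^ 2) / DD mu z) := by
  intro k Λ R C3
  obtain ⟨Cb, hCb, hJb⟩ := J_ball
  obtain ⟨CU, hCU, hJU⟩ := J_U
  obtain ⟨CS, hCS, hJS⟩ := J_U_sq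
  refine ⟨Cb + 8 * CU + k * (13 * CU + 4056 * CS), by positivity, fun τ hτ hτ' =>
    ⟨τ / 3, by positivity, ?_⟩⟩
  intro ω p u lam mu z sg ρ hω hc hr x hx
  have hk := hc.hk
  have hm0 : 0 < mu 0 := hc.hmu 0 (by omega)
  have hm1 : 0 < mu 1 := hc.hmu 1 (by omega)
  have hω0 : 0 < ω := hc.hω.1
  have hρ : 0 < ρ := hr.pos
  set D := DD mu z with hD
  set t := tt mu z with ht
  -- D
  have hD2 : D ^ 2 = mu 0 ^ 2 + ‖z 0 - z 1‖ ^ 2 := by
    rw [hD]; unfold DD; rw [Real.sq_sqrt (by positivity)]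
  have hD0 : 0 < D := by
    rw [hD]; unfold DD; exact Real.sqrt_pos.2 (by positivity)
  have hmD : mu 0 ≤ D := by
    rw [hD]; unfold DD
    exact Real.le_sqrt_of_sq_le (by linarith [sq_nonneg ‖z 0 - z 1‖])
  have hz01 : ‖z 0 - z 1‖ ≤ 2 * ω := by
    have h1 := norm_sub_le_norm_sub_add_norm_sub (z 0) p (z 1)
    have h2 := hc.hz 0 (by omega)
    have h3 := hc.hz 1 (by omega)
    rw [norm_sub_rev] at h3
    linarith
  have hD3 : D ≤ 3 * ω := by
    have h1 := hc.hmu0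
    have h2 : mu 0 ^ 2 ≤ ω ^ 2 := pow_le_pow_left₀ hm0.le h1 2
    have h3 : ‖z 0 - z 1‖ ^ 2 ≤ (2 * ω) ^ 2 := pow_le_pow_left₀ (norm_nonneg _) hz01 2
    have h4 : D ^ 2 ≤ (3 * ω) ^ 2 := by
      rw [hD2]; linarith [sq_nonneg ω]
    exact le_of_sq_le_sq h4 (by positivity)
  have hDτ : D ≤ τ := by linarith
  have ht0 : 0 ≤ t := by rw [ht]; unfold tt; exact FE1a_U_nonneg _ _ _
  have hx' : ‖x - z 1‖ ≤ 2 * ρ := by rw [← dist_eq_norm]; exact hx
  -- the first bubble at x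
  have hA0x : D ^ 2 / 4 ≤ A (mu 0) (z 0) x := by
    have h1 : 2 * ρ ≤ D / 32 := by
      have := hr.le
      have h2 : τ * D ≤ 1 / 64 * D := mul_le_mul_of_nonneg_right hτ' hD0.le
      linarith
    have h2 : ‖z 0 - z 1‖ ≤ ‖x - z 0‖ + D / 32 := by
      have h3 := norm_sub_le_norm_sub_add_norm_sub (z 0) x (z 1)
      rw [norm_sub_rev (z 0) x] at h3
      linarith
    have h3 : ‖z 0 - z 1‖ ^ 2 ≤ (‖x - z 0‖ + D / 32) ^ 2 :=
      pow_le_pow_left₀ (norm_nonneg _) h2 2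
    have h4 : (‖x - z 0‖ + D / 32) ^ 2 ≤ 2 * ‖x - z 0‖ ^ 2 + 2 * (D / 32) ^ 2 := by
      nlinarith [sq_nonneg (‖x - z 0‖ - D / 32)]
    have h5 : D ^ 2 ≤ 2 * A (mu 0) (z 0) x + D ^ 2 / 512 := by
      rw [show D ^ 2 / 512 = 2 * (D / 32) ^ 2 by ring]
      unfold A
      linarith [sq_nonneg (mu 0)]
    linarith [sq_nonneg D]
  have hA0pos : 0 < A (mu 0) (z 0) x := lt_of_lt_of_le (by positivity) hA0x
  have hsA0x : D / 2 ≤ √(A (mu 0) (z 0) x) := by
    apply Real.le_sqrt_of_sq_le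
    rw [show (D / 2) ^ 2 = D ^ 2 / 4 by ring]; exact hA0x
  have hq : 0 ≤ (mu 0 / D) ^ 2 := sq_nonneg _
  have hq1 : (mu 0 / D) ^ 2 ≤ 1 := by
    have : mu 0 / D ≤ 1 := (div_le_one hD0).2 hmD
    exact pow_le_one₀ (by positivity) this
  obtain ⟨j4, j5⟩ := hJU (mu 0) (z 0) x hm0
  have hU04 : J 4 (U (mu 0) (z 0)) x ≤ ENNReal.ofReal (4 * CU * (mu 0 / D) ^ 2) := by
    refine FE1a_le j4 ?_
    calc CU * mu 0 ^ 2 / A (mu 0) (z 0) x ≤ CU * mu 0 ^ 2 / (D ^ 2 / 4) :=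
          div_le_div_of_nonneg_left (by positivity) (by positivity) hA0x
      _ = _ := by field_simp
  have hU05 : J 5 (U (mu 0) (z 0)) x ≤ ENNReal.ofReal (8 * CU * ((mu 0 / D) ^ 2 / D)) := by
    refine FE1a_le j5 ?_
    have h1 : D ^ 3 / 8 ≤ A (mu 0) (z 0) x * √(A (mu 0) (z 0) x) := by
      calc D ^ 3 / 8 = D ^ 2 / 4 * (D / 2) := by ring
        _ ≤ _ := mul_le_mul hA0x hsA0x (by positivity) hA0pos.le
    calc CU * mu 0 ^ 2 / (A (mu 0) (z 0) x * √(A (mu 0) (z 0) x)) ≤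
          CU * mu 0 ^ 2 / (D ^ 3 / 8) :=
          div_le_div_of_nonneg_left (by positivity) (by positivity) h1
      _ = _ := by field_simp
  -- the constant
  have hR := hc.hR
  have hB4 : J 4 ((closedBall p R).indicator fun _ => (1 : ℝ)) x ≤ ENNReal.ofReal Cb := by
    refine FE1a_le (hJb 4 x p R 1 (Or.inl rfl) hR.1 zero_le_one) ?_
    have h1 : R ^ (6 - 4) ≤ 1 := pow_le_one₀ hR.1.le hR.2
    calc Cb * 1 * R ^ (6 - 4) ≤ Cb * 1 * 1 := mul_le_mul_of_nonneg_left h1 (by positivity)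
      _ = Cb := by ring
  have hB5 : J 5 ((closedBall p R).indicator fun _ => (1 : ℝ)) x ≤
      ENNReal.ofReal (Cb * (τ / D)) := by
    refine FE1a_le (hJb 5 x p R 1 (Or.inr rfl) hR.1 zero_le_one) ?_
    have h1 : R ^ (6 - 5) ≤ τ / D := by
      rw [le_div_iff₀ hD0]
      have h2 : R ^ (6 - 5) * D ≤ 1 * D :=
        mul_le_mul_of_nonneg_right (pow_le_one₀ hR.1.le hR.2) hD0.le
      linarith
    calc Cb * 1 * R ^ (6 - 5) ≤ Cb * 1 * (τ / D) := mul_le_mul_of_nonneg_left h1 (by positivity)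
      _ = _ := by ring
  -- the small bubbles
  have hSS : ∀ y ∈ SS R p (z 1) ρ, ρ ≤ ‖y - z 1‖ := by
    intro y hy
    have := hy.2
    rw [mem_ball, dist_eq_norm, not_lt] at this
    exact this
  have hmul : ∀ l ∈ Finset.Ico 1 k, 0 < mu l ∧ mu l ≤ mu 1 ∧
      (‖z l - z 1‖ ≤ ρ / 4 ∨ (2 ≤ l ∧ 8 * ρ ≤ ‖z l - z 1‖)) := by
    intro l hl
    rw [Finset.mem_Ico] at hl
    refine ⟨hc.hmu l hl.2, ?_, ?_⟩
    · rcases Nat.lt_or_ge 1 l with h | h
      · have h1 := hc.hsep 1 l h hl.2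
        have h2 : ω * mu 1 ≤ 1 * mu 1 := by
          refine mul_le_mul_of_nonneg_right ?_ hm1.le
          linarith [hc.hω.2]
        linarith
      · have : l = 1 := by omega
        rw [this]
    · rcases Nat.lt_or_ge 1 l with h | h
      · rcases hr.gap l h hl.2 with h1 | h1
        · exact Or.inl h1
        · exact Or.inr ⟨h, h1⟩
      · have : l = 1 := by omega
        rw [this]
        left
        rw [sub_self, norm_zero]; positivity
  have hterm : ∀ l ∈ Finset.Ico 1 k,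
      J 4 (fun y => (SS R p (z 1) ρ).indicator (U (mu l) (z l)) y +
        (SS R p (z 1) ρ).indicator (fun y => U (mu l) (z l) y ^ 2) y) x ≤
        ENNReal.ofReal ((13 * CU + 4056 * CS) * (1 + τ * t)) ∧
      J 5 (fun y => (SS R p (z 1) ρ).indicator (U (mu l) (z l)) y +
        (SS R p (z 1) ρ).indicator (fun y => U (mu l) (z l) y ^ 2) y) x ≤
        ENNReal.ofReal ((13 * CU + 4056 * CS) * (τ * (1 + t) / D)) := by
    intro l hl
    obtain ⟨hml, hml1, hgap⟩ := hmul l hl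
    have hlk := (Finset.mem_Ico.1 hl).2
    have hgap' : ‖z l - z 1‖ ≤ ρ / 4 ∨ 8 * ρ ≤ ‖z l - z 1‖ := by
      rcases hgap with h | h
      · exact Or.inl h
      · exact Or.inr h.2
    obtain ⟨a4, a5, ab⟩ := FE1a_one CU CS hCU hCS hJU hJS hml hρ (z l) (z 1) x
      (SS R p (z 1) ρ) hSS hx' hgap'
    have hSSm : MeasurableSet (SS R p (z 1) ρ) := measurableSet_ball.diff measurableSet_ball
    have hmeas : Measurable ((SS R p (z 1) ρ).indicator fun y => U (mu l) (z l) y ^ 2) :=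
      ((FE1a_measurable_U _ _).pow_const 2).indicator hSSm
    -- bounds of the linear part
    have h1 : mu l ^ 2 ≤ mu 1 ^ 2 := pow_le_pow_left₀ hml.le hml1 2
    have h14 : mu l ^ 4 ≤ mu 1 ^ 4 := pow_le_pow_left₀ hml.le hml1 4
    have hτ1 : τ ≤ 1 := by linarith
    have hτt : 0 ≤ τ * t := mul_nonneg hτ.le ht0
    have b4 : mu l ^ 2 / ρ ^ 2 ≤ 1 + τ * t := by
      rw [div_le_iff₀ (by positivity)]
      have h2 := hr.q5
      have h3 : τ ^ 2 ≤ 1 := pow_le_one₀ hτ.le hτ1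
      have h4 : τ ^ 2 * ρ ^ 2 ≤ 1 * ρ ^ 2 := mul_le_mul_of_nonneg_right h3 (by positivity)
      have h5 : 1 * ρ ^ 2 ≤ (1 + τ * t) * ρ ^ 2 :=
        mul_le_mul_of_nonneg_right (by linarith) (by positivity)
      linarith
    have b5 : mu l ^ 2 / ρ ^ 3 ≤ τ * (1 + t) / D := by
      rw [div_le_div_iff₀ (by positivity) hD0]
      have h2 : D * mu 1 ^ 2 ≤ τ * ρ ^ 3 := hr.q6
      have h3 : mu l ^ 2 * D ≤ mu 1 ^ 2 * D := mul_le_mul_of_nonneg_right h1 hD0.le
      have h4 : τ * ρ ^ 3 ≤ τ * (1 + t) * ρ ^ 3 := by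
        have : τ * 1 ≤ τ * (1 + t) := mul_le_mul_of_nonneg_left (by linarith) hτ.le
        calc τ * ρ ^ 3 = τ * 1 * ρ ^ 3 := by ring
          _ ≤ _ := mul_le_mul_of_nonneg_right this (by positivity)
      linarith
    -- bounds of the quadratic part
    have s45 : J 4 ((SS R p (z 1) ρ).indicator fun y => U (mu l) (z l) y ^ 2) x ≤
          ENNReal.ofReal (4056 * CS * (1 + τ * t)) ∧
        J 5 ((SS R p (z 1) ρ).indicator fun y => U (mu l) (z l) y ^ 2) x ≤
          ENNReal.ofReal (4056 * CS * (τ * (1 + t) / D)) := by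
      rcases ab with ⟨_, s4, s5⟩ | ⟨hfar, s4, s5⟩
      · constructor
        · refine FE1a_le s4 (mul_le_mul_of_nonneg_left ?_ (by positivity))
          rw [div_le_iff₀ (by positivity)]
          have h2 : mu 1 ^ 4 ≤ τ * (1 + t) * ρ ^ 6 := hr.q1
          have h3 : τ * (1 + t) ≤ 1 + τ * t := by linarith
          have h4 := mul_le_mul_of_nonneg_right h3 (by positivity : (0 : ℝ) ≤ ρ ^ 6)
          linarith
        · refine FE1a_le s5 (mul_le_mul_of_nonneg_left ?_ (by positivity))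
          rw [div_le_div_iff₀ (by positivity) hD0]
          have h2 : D * mu 1 ^ 4 ≤ τ * (1 + t) * ρ ^ 7 := hr.q2
          have h3 : mu l ^ 4 * D ≤ mu 1 ^ 4 * D := mul_le_mul_of_nonneg_right h14 hD0.le
          linarith
      · have hl2 : 2 ≤ l := by
          rcases hgap with h | h
          · exfalso; linarith
          · exact h.1
        constructor
        · refine FE1a_le s4 ?_
          have h2 : mu l ^ 2 ≤ τ * (1 + t) * ρ ^ 4 := hr.q3 l hl2 hlk
          have h3 : mu l ^ 2 / ρ ^ 4 ≤ 1 + τ * t := by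
            rw [div_le_iff₀ (by positivity)]
            have h3 : τ * (1 + t) ≤ 1 + τ * t := by linarith
            have h4 := mul_le_mul_of_nonneg_right h3 (by positivity : (0 : ℝ) ≤ ρ ^ 4)
            linarith
          calc 24 * CS * (mu l ^ 2 / ρ ^ 4) ≤ 24 * CS * (1 + τ * t) :=
                mul_le_mul_of_nonneg_left h3 (by positivity)
            _ ≤ 4056 * CS * (1 + τ * t) := by
                refine mul_le_mul_of_nonneg_right ?_ (by positivity)
                linarith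
        · refine FE1a_le s5 ?_
          have h2 : D * mu l ^ 2 ≤ τ * (1 + t) * ρ ^ 5 := hr.q4 l hl2 hlk
          have h3 : mu l ^ 2 / ρ ^ 5 ≤ τ * (1 + t) / D := by
            rw [div_le_div_iff₀ (by positivity) hD0]
            linarith
          calc 24 * CS * (mu l ^ 2 / ρ ^ 5) ≤ 24 * CS * (τ * (1 + t) / D) :=
                mul_le_mul_of_nonneg_left h3 (by positivity)
            _ ≤ 4056 * CS * (τ * (1 + t) / D) := by
                refine mul_le_mul_of_nonneg_right ?_ (by positivity)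
                linarith
    constructor
    · have := FE1a_add (by positivity) (by positivity)
        (FE1a_le a4 (mul_le_mul_of_nonneg_left b4 (by positivity))) s45.1 hmeas
      refine FE1a_le this (le_of_eq ?_)
      ring
    · have := FE1a_add (by positivity) (by positivity)
        (FE1a_le a5 (mul_le_mul_of_nonneg_left b5 (by positivity))) s45.2 hmeas
      refine FE1a_le this (le_of_eq ?_)
      ring
  have hSSm : MeasurableSet (SS R p (z 1) ρ) := measurableSet_ball.diff measurableSet_ball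
  have htm : ∀ l ∈ Finset.Ico 1 k, Measurable (fun y => (SS R p (z 1) ρ).indicator
      (U (mu l) (z l)) y + (SS R p (z 1) ρ).indicator (fun y => U (mu l) (z l) y ^ 2) y) :=
    fun l _ => ((FE1a_measurable_U _ _).indicator hSSm).add
      (((FE1a_measurable_U _ _).pow_const 2).indicator hSSm)
  have hτt : 0 ≤ τ * t := mul_nonneg hτ.le ht0
  have hsum4 := FE1a_sum (m := 4) (Finset.Ico 1 k) (fun l y => (SS R p (z 1) ρ).indicator
      (U (mu l) (z l)) y + (SS R p (z 1) ρ).indicator (fun y => U (mu l) (z l) y ^ 2) y) x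
    (fun _ => (13 * CU + 4056 * CS) * (1 + τ * t)) (fun _ _ => by positivity)
    (fun l hl => (hterm l hl).1) htm
  have hsum5 := FE1a_sum (m := 5) (Finset.Ico 1 k) (fun l y => (SS R p (z 1) ρ).indicator
      (U (mu l) (z l)) y + (SS R p (z 1) ρ).indicator (fun y => U (mu l) (z l) y ^ 2) y) x
    (fun _ => (13 * CU + 4056 * CS) * (τ * (1 + t) / D)) (fun _ _ => by positivity)
    (fun l hl => (hterm l hl).2) htm
  have hsm : Measurable (fun y => ∑ l ∈ Finset.Ico 1 k, ((SS R p (z 1) ρ).indicator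
      (U (mu l) (z l)) y + (SS R p (z 1) ρ).indicator (fun y => U (mu l) (z l) y ^ 2) y)) :=
    Finset.measurable_sum _ htm
  have hcard : ((Finset.Ico 1 k).card : ℝ) ≤ k := by
    rw [Nat.card_Ico]; exact_mod_cast Nat.sub_le k 1
  -- the pointwise decomposition
  have hpt : ∀ y, (SS R p (z 1) ρ).indicator (fun y => 1 + ∑ l ∈ Finset.range k, U (mu l) (z l) y
          + ∑ l ∈ Finset.Ico 1 k, U (mu l) (z l) y ^ 2) y ≤
      ((closedBall p R).indicator (fun _ => (1 : ℝ)) y + U (mu 0) (z 0) y) +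
        ∑ l ∈ Finset.Ico 1 k, ((SS R p (z 1) ρ).indicator (U (mu l) (z l)) y +
          (SS R p (z 1) ρ).indicator (fun y => U (mu l) (z l) y ^ 2) y) := by
    intro y
    by_cases hy : y ∈ SS R p (z 1) ρ
    · have hy' : y ∈ closedBall p R := ball_subset_closedBall hy.1
      simp only [indicator_of_mem hy, indicator_of_mem hy']
      rw [Finset.sum_add_distrib, Finset.range_eq_Ico, Finset.sum_eq_sum_Ico_succ_bot (by omega)]
      apply le_of_eq
      ring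
    · simp only [indicator_of_notMem hy]
      have h1 : 0 ≤ (closedBall p R).indicator (fun _ => (1 : ℝ)) y :=
        indicator_nonneg (fun _ _ => zero_le_one) _
      have h2 := FE1a_U_nonneg (mu 0) (z 0) y
      simp only [add_zero, Finset.sum_const_zero]
      linarith
  constructor
  · have h1 := FE1a_add (by positivity) (by positivity)
      (FE1a_add hCb.le (by positivity) hB4 hU04 (FE1a_measurable_U _ _)) hsum4 hsm
    refine FE1a_le (FE1a_mono hpt h1) ?_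
    rw [Finset.sum_const, nsmul_eq_mul]
    have e1 : ((Finset.Ico 1 k).card : ℝ) * ((13 * CU + 4056 * CS) * (1 + τ * t)) ≤
        k * ((13 * CU + 4056 * CS) * (1 + τ * t)) :=
      mul_le_mul_of_nonneg_right hcard (by positivity)
    have e2 : 4 * CU * (mu 0 / D) ^ 2 ≤ 4 * CU * 1 := mul_le_mul_of_nonneg_left hq1 (by positivity)
    have e3 : (Cb + 8 * CU) * 1 ≤ (Cb + 8 * CU) * (1 + τ * t) :=
      mul_le_mul_of_nonneg_left (by linarith) (by positivity)
    calc Cb + 4 * CU * (mu 0 / D) ^ 2 +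
          ((Finset.Ico 1 k).card : ℝ) * ((13 * CU + 4056 * CS) * (1 + τ * t))
        ≤ (Cb + 8 * CU) * (1 + τ * t) + k * ((13 * CU + 4056 * CS) * (1 + τ * t)) := by linarith
      _ = _ := by ring
  · have h1 := FE1a_add (by positivity) (by positivity)
      (FE1a_add (by positivity) (by positivity) hB5 hU05 (FE1a_measurable_U _ _)) hsum5 hsm
    refine FE1a_le (FE1a_mono hpt h1) ?_
    rw [Finset.sum_const, nsmul_eq_mul]
    have hB : 0 ≤ τ * (1 + t) / D := by positivity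
    have e1 : ((Finset.Ico 1 k).card : ℝ) * ((13 * CU + 4056 * CS) * (τ * (1 + t) / D)) ≤
        k * ((13 * CU + 4056 * CS) * (τ * (1 + t) / D)) :=
      mul_le_mul_of_nonneg_right hcard (by positivity)
    have e2 : Cb * (τ / D) ≤ Cb * (τ * (1 + t) / D) := by
      refine mul_le_mul_of_nonneg_left ?_ hCb.le
      rw [div_le_div_iff_of_pos_right hD0]
      have : τ * 1 ≤ τ * (1 + t) := mul_le_mul_of_nonneg_left (by linarith) hτ.le
      linarith
    have hP : 0 ≤ (mu 0 / D) ^ 2 / D := by positivity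
    have f1 : 0 ≤ Cb * ((mu 0 / D) ^ 2 / D) := by positivity
    have f2 : 0 ≤ 8 * CU * (τ * (1 + t) / D) := by positivity
    have f3 : 0 ≤ k * (13 * CU + 4056 * CS) * ((mu 0 / D) ^ 2 / D) := by positivity
    have e4 : (Cb + 8 * CU + k * (13 * CU + 4056 * CS)) * (τ * (1 + t) + (mu 0 / D) ^ 2) / D =
        Cb * (τ * (1 + t) / D) + 8 * CU * ((mu 0 / D) ^ 2 / D) +
        k * ((13 * CU + 4056 * CS) * (τ * (1 + t) / D)) +
        (Cb * ((mu 0 / D) ^ 2 / D) + 8 * CU * (τ * (1 + t) / D) +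
          k * (13 * CU + 4056 * CS) * ((mu 0 / D) ^ 2 / D)) := by ring
    rw [e4]
    linarith

end Pool.Helper4.BT
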